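import Pool.Agent.H62.LV.Base
import Pool.Agent.H62.LV.Lin
import Pool.Agent.Helper46.LV.P1
import Pool.Agent.Helper46.LV.P2
import Pool.Agent.Helper33.LV.P4

namespace Pool.Agent.H62.LV

open MeasureTheory Set Filter Topology

/-! ## P7c: smoothing -/

theorem P7c_flow_continuous (L : ℝ) (N : ℕ) (c : ℕ → ℝ) :
    Continuous (fun z : ℝ × ℝ => flow L N c z.1 z.2) := by
  unfold flow eig
  fun_prop

theorem P7c_flow_integral_continuous (L : ℝ) (N : ℕ) (c : ℕ → ℝ) :
    Continuous (fun τ : ℝ => ∫ x in (0 : ℝ)..L, flow L N c τ x) :=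
  intervalIntegral.continuous_parametric_intervalIntegral_of_continuous'
    (P7c_flow_continuous L N c) 0 L

/-- one equation -/
theorem P7c_one {L M : ℝ} (hL : 0 < L) (hM : 0 ≤ M) {τ C : ℝ} (hτ : 0 < τ)
    (_hC : 0 ≤ C) (hCf : ∀ (N : ℕ) (c : ℕ → ℝ), (∀ x ∈ Icc 0 L, 0 ≤ flow L N c 0 x) →
      ∀ x ∈ Icc 0 L, flow L N c τ x ≤ C * ∫ x in (0 : ℝ)..L, flow L N c 0 x)
    {w₀ : ℝ → ℝ} {w h : ℝ → ℝ → ℝ} (rw : Reg L w) (rh : Reg L h)
    (i₀ : IntervalIntegrable w₀ volume 0 L) (n₀ : ∀ x ∈ Ioo 0 L, 0 ≤ w₀ x)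
    (hh : ∀ t, 0 < t → ∀ x ∈ Ioo 0 L, h t x ≤ M)
    (H : WeakHeat L w₀ (fun _ => 0) (fun _ => 0) h w) :
    ∀ x ∈ Ioo 0 L, w τ x ≤ C * (∫ y in (0 : ℝ)..L, w₀ y) + M * τ := by
  set A := C * (∫ y in (0 : ℝ)..L, w₀ y) + M * τ with hA
  obtain ⟨B, hB⟩ := rw.bdd τ
  have key := detect hL (g := fun x => A - w τ x) (C := |A| + B) ?_ ?_ ?_
  · intro x hx
    have := key x hx
    linarith
  · apply ContinuousOn.sub continuousOn_const
    exact rw.cont.comp (f := fun x : ℝ => ((τ, x) : ℝ × ℝ)) (by fun_prop) (fun x hx => ⟨hτ, hx⟩)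
  · intro x hx
    refine (abs_sub _ _).trans ?_
    exact add_le_add le_rfl (hB τ ⟨hτ, le_rfl⟩ x hx)
  · intro N c hc
    have hrep := weak_repr hL rw rh i₀ (bdata_const 0) (bdata_const 0) H 0 N c hτ
    have hfc : Continuous (flow L N c 0) :=
      (P7c_flow_continuous L N c).comp (by fun_prop : Continuous fun x : ℝ => ((0 : ℝ), x))
    have hfct : ∀ σ, Continuous (flow L N c σ) := fun σ =>
      (P7c_flow_continuous L N c).comp (by fun_prop : Continuous fun x : ℝ => (σ, x))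
    have hsub : ∫ x in (0 : ℝ)..L, (A - w τ x) * flow L N c 0 x =
        A * (∫ x in (0 : ℝ)..L, flow L N c 0 x) - ∫ x in (0 : ℝ)..L, w τ x * flow L N c 0 x := by
      rw [← intervalIntegral.integral_const_mul, ← intervalIntegral.integral_sub]
      · congr 1
        ext x
        ring
      · exact (continuous_const.mul hfc).intervalIntegrable _ _
      · exact rw.slice hL hτ hfc
    rw [hsub, hrep]
    simp only [neg_zero, zero_mul, Real.exp_zero, one_mul, add_zero, sub_zero]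
    set S := ∫ x in (0 : ℝ)..L, flow L N c 0 x with hS
    have h1 : ∫ x in (0 : ℝ)..L, w₀ x * flow L N c τ x ≤ (∫ y in (0 : ℝ)..L, w₀ y) * (C * S) := by
      rw [← intervalIntegral.integral_mul_const]
      apply intervalIntegral.integral_mono_on_of_le_Ioo hL.le
      · exact i₀.mul_continuousOn (hfct τ).continuousOn
      · exact i₀.mul_const _
      · intro x hx
        exact mul_le_mul_of_nonneg_left (hCf N c hc x ⟨hx.1.le, hx.2.le⟩) (n₀ x hx)
    have h2 : ∫ s in (0 : ℝ)..τ, (∫ x in (0 : ℝ)..L, h s x * flow L N c (τ - s) x) ≤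
        ∫ s in (0 : ℝ)..τ, M * S := by
      by_cases hint : IntervalIntegrable
          (fun s => ∫ x in (0 : ℝ)..L, h s x * flow L N c (τ - s) x) volume 0 τ
      · apply intervalIntegral.integral_mono_on_of_le_Ioo hτ.le hint
          (continuous_const.intervalIntegrable _ _)
        intro s hs
        have hts : 0 ≤ τ - s := by linarith [hs.2]
        have hpos := (flow_nonneg hL hc hts).1
        have h3 : ∫ x in (0 : ℝ)..L, h s x * flow L N c (τ - s) x ≤
            ∫ x in (0 : ℝ)..L, M * flow L N c (τ - s) x := by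
          apply intervalIntegral.integral_mono_on_of_le_Ioo hL.le
          · exact rh.slice hL hs.1 (hfct _)
          · exact (continuous_const.mul (hfct _)).intervalIntegrable _ _
          · intro x hx
            exact mul_le_mul_of_nonneg_right (hh s hs.1 x hx) (hpos x ⟨hx.1.le, hx.2.le⟩)
        refine h3.trans ?_
        rw [intervalIntegral.integral_const_mul]
        exact mul_le_mul_of_nonneg_left (flow_integral_le hL hc hts) hM
      · rw [intervalIntegral.integral_undef hint, intervalIntegral.integral_const, smul_eq_mul]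
        have hS0 : 0 ≤ S := intervalIntegral.integral_nonneg hL.le (fun x hx => hc x hx)
        have : 0 ≤ τ - 0 := by linarith
        positivity
    rw [intervalIntegral.integral_const, smul_eq_mul, sub_zero] at h2
    rw [hA]
    nlinarith [h1, h2]

theorem coop_smoothing {a b L : ℝ} (ha : 0 < a) (hb : 0 < b) (hL : 0 < L) {τ : ℝ}
    (hτ : 0 < τ) : ∃ C : ℝ, 0 ≤ C ∧ ∀ (p₀ q₀ : ℝ → ℝ) (p q : ℝ → ℝ → ℝ),
      Coop a b L p₀ q₀ p q → ∀ t, 0 < t → ∀ x ∈ Icc 0 L,
        p (t + τ) x ≤ C * (∫ y in (0 : ℝ)..L, p t y) + (1 + a + b) * τ ∧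
        q (t + τ) x ≤ C * (∫ y in (0 : ℝ)..L, q t y) + (1 + a + b) * τ := by
  obtain ⟨C, hC0, hC⟩ := flow_sup_le hL hτ
  refine ⟨C, hC0, ?_⟩
  intro p₀ q₀ p q hs t ht
  have hM : 0 ≤ 1 + a + b := by positivity
  have regp : Reg L p := by
    refine ⟨hs.contp.mono (prod_mono le_rfl Ioo_subset_Icc_self), fun T => ⟨1, ?_⟩⟩
    intro s hs' x hx
    have := (hs.mem s hs'.1 x ⟨hx.1.le, hx.2.le⟩).1
    rw [abs_le]
    exact ⟨by linarith [this.1], this.2⟩
  have regq : Reg L q := by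
    refine ⟨hs.contq.mono (prod_mono le_rfl Ioo_subset_Icc_self), fun T => ⟨1, ?_⟩⟩
    intro s hs' x hx
    have := (hs.mem s hs'.1 x ⟨hx.1.le, hx.2.le⟩).2
    rw [abs_le]
    exact ⟨by linarith [this.1], this.2⟩
  have regF1 : Reg L (fun t x => F₁ a (p t x) (q t x)) := by
    refine ⟨?_, fun T => ⟨1 + a + 1 + a, ?_⟩⟩
    · unfold F₁
      have := regp.cont
      have := regq.cont
      fun_prop
    · intro s hs' x hx
      have h1 := (hs.mem s hs'.1 x ⟨hx.1.le, hx.2.le⟩).1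
      have h2 := (hs.mem s hs'.1 x ⟨hx.1.le, hx.2.le⟩).2
      unfold F₁
      rw [abs_mul]
      have e1 : |p s x| ≤ 1 := by
        rw [abs_le]
        exact ⟨by linarith [h1.1], h1.2⟩
      have e2 : |1 - a - p s x + a * q s x| ≤ 1 + a + 1 + a := by
        rw [abs_le]
        constructor <;> nlinarith [h1.1, h1.2, h2.1, h2.2]
      calc |p s x| * |1 - a - p s x + a * q s x| ≤ 1 * (1 + a + 1 + a) :=
            mul_le_mul e1 e2 (abs_nonneg _) zero_le_one
        _ = _ := one_mul _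
  have regF2 : Reg L (fun t x => F₂ b (p t x) (q t x)) := by
    refine ⟨?_, fun T => ⟨b + 1, ?_⟩⟩
    · unfold F₂
      have := regp.cont
      have := regq.cont
      fun_prop
    · intro s hs' x hx
      have h1 := (hs.mem s hs'.1 x ⟨hx.1.le, hx.2.le⟩).1
      have h2 := (hs.mem s hs'.1 x ⟨hx.1.le, hx.2.le⟩).2
      unfold F₂
      rw [abs_mul]
      have e1 : |1 - q s x| ≤ 1 := by
        rw [abs_le]
        exact ⟨by linarith [h2.2], by linarith [h2.1]⟩
      have e2 : |b * p s x - q s x| ≤ b + 1 := by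
        rw [abs_le]
        constructor <;> nlinarith [h1.1, h1.2, h2.1, h2.2]
      calc |1 - q s x| * |b * p s x - q s x| ≤ 1 * (b + 1) :=
            mul_le_mul e1 e2 (abs_nonneg _) zero_le_one
        _ = _ := one_mul _
  have hshift : ∀ {w : ℝ → ℝ → ℝ}, Reg L w → Reg L (fun s x => w (t + s) x) := by
    intro w hw
    refine ⟨?_, fun T => ?_⟩
    · exact hw.cont.comp (f := fun z : ℝ × ℝ => ((t + z.1, z.2) : ℝ × ℝ)) (by fun_prop)
        (fun z hz => ⟨by
          have : (0 : ℝ) < z.1 := hz.1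
          show (0 : ℝ) < t + z.1
          linarith, hz.2⟩)
    · obtain ⟨C', hC'⟩ := hw.bdd (t + T)
      exact ⟨C', fun s hs' x hx => hC' (t + s) ⟨by linarith [hs'.1], by linarith [hs'.2]⟩ x hx⟩
  have wp := weak_shift hL regp regF1 (bdata_const 0) (bdata_const 0) hs.weakp ht
  have wq := weak_shift hL regq regF2 (bdata_const 0) (bdata_const 0) hs.weakq ht
  have kp := P7c_one hL hM hτ hC0 hC (hshift regp) (hshift regF1) (regp.slice' hL ht)
    (fun x hx => (hs.mem t ht x ⟨hx.1.le, hx.2.le⟩).1.1) ?_ wp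
  have kq := P7c_one hL hM hτ hC0 hC (hshift regq) (hshift regF2) (regq.slice' hL ht)
    (fun x hx => (hs.mem t ht x ⟨hx.1.le, hx.2.le⟩).2.1) ?_ wq
  · intro x hx
    have ip : 0 ≤ ∫ y in (0 : ℝ)..L, p t y :=
      intervalIntegral.integral_nonneg hL.le (fun y hy => (hs.mem t ht y hy).1.1)
    have iq : 0 ≤ ∫ y in (0 : ℝ)..L, q t y :=
      intervalIntegral.integral_nonneg hL.le (fun y hy => (hs.mem t ht y hy).2.1)
    have np : 0 ≤ C * (∫ y in (0 : ℝ)..L, p t y) + (1 + a + b) * τ := by positivity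
    have nq : 0 ≤ C * (∫ y in (0 : ℝ)..L, q t y) + (1 + a + b) * τ := by positivity
    have bd := hs.bdry (t + τ) (by linarith)
    rcases eq_or_lt_of_le hx.1 with h0 | h0
    · subst h0
      rw [bd.1, bd.2.2.1]
      exact ⟨np, nq⟩
    · rcases eq_or_lt_of_le hx.2 with h1 | h1
      · rw [h1, bd.2.1, bd.2.2.2]
        exact ⟨np, nq⟩
      · exact ⟨kp x ⟨h0, h1⟩, kq x ⟨h0, h1⟩⟩
  · intro s hs' x hx
    have h1 := (hs.mem (t + s) (by linarith) x ⟨hx.1.le, hx.2.le⟩).1
    have h2 := (hs.mem (t + s) (by linarith) x ⟨hx.1.le, hx.2.le⟩).2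
    have e1 : b * p (t + s) x - q (t + s) x ≤ b := by nlinarith [h1.2, h2.1]
    show (1 - q (t + s) x) * (b * p (t + s) x - q (t + s) x) ≤ 1 + a + b
    have e3 : 0 ≤ 1 - q (t + s) x := by linarith [h2.2]
    nlinarith [mul_le_mul_of_nonneg_left e1 e3, h2.1]
  · intro s hs' x hx
    have h1 := (hs.mem (t + s) (by linarith) x ⟨hx.1.le, hx.2.le⟩).1
    have h2 := (hs.mem (t + s) (by linarith) x ⟨hx.1.le, hx.2.le⟩).2
    have e1 : 1 - a - p (t + s) x + a * q (t + s) x ≤ 1 := by nlinarith [h1.1, h2.2]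
    show p (t + s) x * (1 - a - p (t + s) x + a * q (t + s) x) ≤ 1 + a + b
    nlinarith [mul_le_mul_of_nonneg_left e1 h1.1, h1.2]

end Pool.Agent.H62.LV
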